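import Pool.Agent.Q174.TB.Conway

/-!
# Alternating star-shaped plumbing knots and their Conway polynomials
-/

set_option autoImplicit false
set_option linter.unusedSectionVars false

namespace Pool.Agent.V8H81.Star

open Pool.Agent.Helper454.Wh
open Pool.Agent.Helper454.Wh.OPiece
open Q174.TBD

/-- Two nested maxima: four strands directed down, up, down, up. -/
def top : OWord := [birth 0 true, birth 1 false]

/-- The short arm: a Hopf band plumbed to the band of the strands `0`, `1`. -/
def armOne : OWord := [birth 2 true, neg 1, neg 1, death 0]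

/-- The long arm: a Hopf band plumbed to the band of the strands `0`, `1`, with a second Hopf band
plumbed to it. -/
def armTwo : OWord := [birth 2 true, neg 1, neg 1, birth 3 false, pos 2, pos 2, death 1, death 0]

/-- `n` long arms. -/
def arms : ℕ → OWord
  | 0 => []
  | n + 1 => arms n ++ armTwo

/-- The star knot with one short arm and `n` long arms. -/
def star (n : ℕ) : OWord := top ++ ([pos 0, pos 0] ++ (armOne ++ (arms n ++ [death 1, death 0])))

theorem top_dirs : insD 1 false (insD 0 true noD) = d0 := by
  funext k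
  rcases k with _ | _ | _ | _ | k <;> rfl

theorem below_top : Pool.Agent.Helper454.Wh.below top 0 noD = some (4, d0) := by
  simp [top, Pool.Agent.Helper454.Wh.below, OPiece.below, top_dirs]

section
variable {R : Type} [CommRing R] {M : Type} [AddCommGroup M] [Module R M]
variable {m : R} {Λ : OWord → M} (hΛ : HomflyRules (1 : R) 1 m Λ)

/-- the other smoothing of the strands `0`, `1` -/
def E (f : OWord → M) : OWord → M := st (st f (death 0)) (birth 0 true)

theorem E_add (f g : OWord → M) : E (f + g) = E f + E g := rfl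
theorem E_sub (f g : OWord → M) : E (f - g) = E f - E g := rfl
theorem E_smul (c : R) (f : OWord → M) : E (c • f) = c • E f := rfl

theorem ap_add (f g : OWord → M) (w : OWord) : ap (f + g) w = ap f w + ap g w := rfl
theorem ap_smul (c : R) (f : OWord → M) (w : OWord) : ap (c • f) w = c • ap f w := rfl

theorem E_mem {f : OWord → M} (hf : f ∈ S R Λ 4 d0) : E f ∈ S R Λ 4 d0 := by
  have h1 : st f (death 0) ∈ S R Λ 2 (delD 0 d0) := death_mem hf (by omega) rfl
  have h2 := birth_mem h1 true (i := 0) (by omega)
  have e : insD 0 true (delD 0 d0) = d0 := by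
    funext k
    rcases k with _ | _ | k <;> rfl
  rw [e] at h2
  exact h2

include hΛ

theorem E_E (hm : ∀ x : OWord → M, m • x = 0 → x = 0) {f : OWord → M} (hf : f ∈ S R Λ 4 d0) :
    E (E f) = 0 := by
  have h1 : st f (death 0) ∈ S R Λ 2 (delD 0 d0) := death_mem hf (by omega) rfl
  have e := bigon hΛ h1 (i := 0) true (by omega)
  rw [sub_self, zero_smul] at e
  have e' := hm _ e
  unfold E
  rw [e']
  rfl

theorem twist_zero {f : OWord → M} (hf : f ∈ S R Λ 4 d0) :
    ap f [pos 0, pos 0] = f - m • E f := by
  have h := twist_val hΛ hf (i := 0) (by omega) rfl (-1)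
  have e : twist 0 (-1) = [pos 0, pos 0] := rfl
  rw [e] at h
  rw [h]
  have e2 : st (st f (death 0)) (birth 0 (d0 0)) = E f := rfl
  rw [e2]
  push_cast
  rw [neg_smul, one_smul, sub_eq_add_neg]

/-- the directions of the six strands -/
def d6 : ℕ → Bool := insD 2 true d0

theorem armOne_val {f : OWord → M} (hf : f ∈ S R Λ 4 d0) :
    ap f armOne = E f + m • f := by
  have hf' : st f (birth 2 true) ∈ S R Λ 6 d6 := birth_mem hf true (by omega)
  have h := twist_val hΛ hf' (i := 1) (by omega) rfl 1
  have e : twist 1 1 = [neg 1, neg 1] := rfl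
  rw [e] at h
  have e1 : st (st f (birth 2 true)) (death 1) = f := zig2 hΛ hf (i := 1) (by omega) rfl
  have e2 : st (st f (birth 1 false)) (death 0) = f := zig2 hΛ hf (i := 0) (by omega) rfl
  have e3 : st (st f (birth 2 true)) (death 0) = E f :=
    (db hΛ (T_of_mem hf) true (i := 0) (j := 0) (by omega) (by omega)).symm
  have e4 : d6 1 = false := rfl
  rw [e1, e4] at h
  have h2 : ap f armOne = st (ap (st f (birth 2 true)) [neg 1, neg 1]) (death 0) := rfl
  rw [h2, h]
  push_cast
  rw [one_smul, st_add, st_smul, e2, e3]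

theorem armTwo_val (hm : ∀ x : OWord → M, m • x = 0 → x = 0) {f : OWord → M}
    (hf : f ∈ S R Λ 4 d0) : ap f armTwo = f - m • E f - (m * m) • f := by
  have hf' : st f (birth 2 true) ∈ S R Λ 6 d6 := birth_mem hf true (by omega)
  have h := twist_val hΛ hf' (i := 1) (by omega) rfl 1
  have e : twist 1 1 = [neg 1, neg 1] := rfl
  rw [e] at h
  have e1 : st (st f (birth 2 true)) (death 1) = f := zig2 hΛ hf (i := 1) (by omega) rfl
  have e2 : st (st f (birth 1 false)) (death 0) = f := zig2 hΛ hf (i := 0) (by omega) rfl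
  have e3 : st (st f (birth 2 true)) (death 0) = E f :=
    (db hΛ (T_of_mem hf) true (i := 0) (j := 0) (by omega) (by omega)).symm
  have e4 : d6 1 = false := rfl
  rw [e1, e4] at h
  set X : OWord → M := st f (birth 1 false) with hX
  set f' : OWord → M := st f (birth 2 true) with hf''
  set g : OWord → M := ap f' [neg 1, neg 1] with hg
  have h' : g = f' + m • X := by
    rw [h]
    push_cast
    rw [one_smul]
  have hgm : g ∈ S R Λ 6 d6 := twist_mem hΛ hf' (i := 1) (by omega) 1
  have hhm : st g (birth 3 false) ∈ S R Λ 8 (insD 3 false d6) := birth_mem hgm false (by omega)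
  have k := twist_val hΛ hhm (i := 2) (by omega) rfl (-1)
  have ke : twist 2 (-1) = [pos 2, pos 2] := rfl
  rw [ke] at k
  have k1 : st (st g (birth 3 false)) (death 2) = g := zig2 hΛ hgm (i := 2) (by omega) rfl
  have k2 : insD 3 false d6 2 = true := rfl
  rw [k1, k2] at k
  have k3 : st (st g (birth 3 false)) (death 1) = st (st g (death 1)) (birth 1 false) :=
    (db hΛ (T_of_mem hgm) false (i := 1) (j := 1) (by omega) (by omega)).symm
  have k4 : st (st g (birth 2 true)) (death 1) = g := zig2 hΛ hgm (i := 1) (by omega) rfl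
  have k5 : st (st X (death 1)) (birth 1 false) = 0 := by
    have b1 := bigon hΛ hf (i := 1) false (by omega)
    rw [sub_self, zero_smul] at b1
    have b2 : st X (death 1) = 0 := hm _ b1
    rw [b2]
    rfl
  have k6 : st (st g (death 1)) (birth 1 false) = X := by
    rw [h', st_add, st_add, st_smul, st_smul, k5, smul_zero, add_zero, e1]
  have h2 : ap f armTwo =
      st (st (ap (st g (birth 3 false)) [pos 2, pos 2]) (death 1)) (death 0) := rfl
  rw [h2, k]
  push_cast
  rw [neg_smul, one_smul, st_add, st_neg, st_smul, k3, k6, k4, h', st_add, st_neg, st_smul, st_add,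
    st_smul, e2, e3, smul_add, smul_smul]
  abel

theorem arms_mem {f : OWord → M} (hf : f ∈ S R Λ 4 d0) (n : ℕ) : ap f (arms n) ∈ S R Λ 4 d0 := by
  induction n with
  | zero => exact hf
  | succ n ih =>
    rw [arms, ap_append]
    have h1 := birth_mem ih (i := 2) true (by omega)
    have h2 := twist_mem hΛ h1 (i := 1) (by omega) 1
    have h3 := birth_mem h2 (i := 3) false (by omega)
    have h4 := twist_mem hΛ h3 (i := 2) (by omega) (-1)
    have h5 := death_mem h4 (i := 1) (by omega) rfl
    have h6 := death_mem h5 (i := 0) (by omega) rfl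
    have e : delD 0 (delD 1 (insD 3 false (insD 2 true d0))) = d0 := by
      funext k
      rcases k with _ | _ | _ | _ | k <;> rfl
    rw [e] at h6
    exact h6

/-- the arms -/
theorem arms_val (hm : ∀ x : OWord → M, m • x = 0 → x = 0) {f : OWord → M}
    (hf : f ∈ S R Λ 4 d0) (n : ℕ) :
    ap f (arms n) = (1 - m * m) ^ n • f - ((n : R) * m * (1 - m * m) ^ (n - 1)) • E f := by
  induction n with
  | zero => simp [arms, ap_nil]
  | succ n ih =>
    rw [arms, ap_append, armTwo_val hΛ hm (arms_mem hΛ hf n), ih, E_sub, E_smul, E_smul,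
      E_E hΛ hm hf, smul_zero, sub_zero]
    simp only [smul_sub, smul_smul]
    have e1 : ((1 - m * m) ^ (n + 1)) • f = (1 - m * m) ^ n • f - (m * m * (1 - m * m) ^ n) • f := by
      rw [← sub_smul]
      congr 1
      ring
    have e2 : (((n + 1 : ℕ) : R) * m * (1 - m * m) ^ (n + 1 - 1)) • E f =
        ((n : R) * m * (1 - m * m) ^ (n - 1)) • E f + (m * (1 - m * m) ^ n) • E f -
          (m * m * ((n : R) * m * (1 - m * m) ^ (n - 1))) • E f := by
      rw [← add_smul, ← sub_smul]
      congr 1
      rcases n with _ | n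
      · simp
      · simp only [Nat.add_sub_cancel]
        push_cast
        ring
    rw [e1, e2]
    abel

/-- the value of the star knot -/
theorem star_val (hm : ∀ x : OWord → M, m • x = 0 → x = 0) (n : ℕ) : ap (extd Λ) (star n) [] =
      ((1 - m * m) ^ (n + 1) - (n : R) * (m * m) * (1 - m * m) ^ (n - 1)) • Λ ocircle := by
  have h0 : extd Λ ∈ S R Λ 0 noD := Submodule.subset_span ⟨[], rfl, rfl⟩
  have h1 : st (extd Λ) (birth 0 true) ∈ S R Λ 2 (insD 0 true noD) := birth_mem h0 true le_rfl
  have hF : ap (extd Λ) top ∈ S R Λ 4 d0 := Submodule.subset_span ⟨top, below_top, rfl⟩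
  set F := ap (extd Λ) top with hFdef
  have hF' : F = st (st (extd Λ) (birth 0 true)) (birth 1 false) := rfl
  -- the two closures
  have v1 : st (st F (death 1)) (death 0) [] = 0 := by
    have b1 := bigon hΛ h1 (i := 1) false (by omega)
    rw [sub_self, zero_smul] at b1
    have b2 := hm _ b1
    rw [hF', b2]
    rfl
  have v2 : st (st (E F) (death 1)) (death 0) [] = Λ ocircle := by
    have z1 : st F (death 0) = st (extd Λ) (birth 0 true) :=
      zig2 hΛ h1 (i := 0) (by omega) rfl
    have z2 : st (st (st (extd Λ) (birth 0 true)) (birth 0 true)) (death 1) =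
        st (extd Λ) (birth 0 true) := zig1 hΛ h1 (i := 0) (by omega) rfl
    unfold E
    rw [z1, z2]
    show extd Λ [birth 0 true, death 0] = _
    rw [extd, if_pos]
    · rfl
    · simp [OClosed, Pool.Agent.Helper454.Wh.below, OPiece.below, insD]
  -- the word
  have hE : E F ∈ S R Λ 4 d0 := E_mem hF
  have hEE := E_E hΛ hm hF
  have w1 : ap F [pos 0, pos 0] = F - m • E F := twist_zero hΛ hF
  have m1 : F - m • E F ∈ S R Λ 4 d0 := Submodule.sub_mem _ hF (Submodule.smul_mem _ _ hE)
  have w2 : ap (F - m • E F) armOne = m • F + (1 - m * m) • E F := by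
    rw [armOne_val hΛ m1, E_sub, E_smul, hEE, smul_zero, sub_zero, smul_sub, smul_smul, sub_smul,
      one_smul]
    abel
  have m2 : m • F + (1 - m * m) • E F ∈ S R Λ 4 d0 :=
    Submodule.add_mem _ (Submodule.smul_mem _ _ hF) (Submodule.smul_mem _ _ hE)
  have w3 := arms_val hΛ hm m2 n
  have w4 : ap (extd Λ) (star n) [] =
      st (st (ap (ap (ap F [pos 0, pos 0]) armOne) (arms n)) (death 1)) (death 0) [] := by
    unfold star
    rw [ap_append, ap_append, ap_append, ap_append]
    rfl
  rw [w4, w1, w2, w3, E_add, E_smul, E_smul, hEE, smul_zero, add_zero]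
  simp only [st_sub, st_smul, st_add, Pi.sub_apply, Pi.smul_apply, Pi.add_apply]
  rw [v1, v2]
  simp only [smul_zero, zero_add, smul_smul, ← sub_smul]
  congr 1
  ring

end

end Pool.Agent.V8H81.Star
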