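import Pool.Agent.V8H81.Star.Calc

/-!
# The star diagrams are alternating knot diagrams
-/

set_option autoImplicit false

namespace Pool.Agent.V8H81.Star

open Pool.Agent.Helper454.Kauf (Piece Word IsKnot Closed components componentsAux width)
open Pool.Agent.Helper454.Wh (OPiece OWord OClosed forget)

/-- Directing the four ends of strands at a piece of a sliced link diagram. `d` lists directions of
the strands above the piece, from left to right (`true` = downwards, `false` = upwards), the value is
the list of the directions of the strands below it, or `none` if the directions are not allowed.

* The two strands at a local maximum or minimum belong to the same arc of the diagram between two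
  consecutive crossings, so one of them is directed downwards and the other one upwards (at a
  maximum, `b` is the direction of the left one).
* At a crossing, the two ends of the over-strand have to be directed away from the crossing, and the
  two ends of the under-strand towards the crossing. At `pos i` the over-strand has its ends at
  the top right (directed upwards) and at the bottom left (directed downwards), and the under-strand
  at the top left (directed downwards) and at the bottom right (directed upwards). At `neg i` the
  over-strand has its ends at the top left (upwards) and at the bottom right (downwards), and the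
  under-strand at the top right (downwards) and at the bottom left (upwards). -/
def arcDirs (b : Bool) : Piece → List Bool → Option (List Bool)
  | Piece.birth i, d => if i ≤ d.length then some (d.take i ++ [b, !b] ++ d.drop i) else none
  | Piece.death i, d =>
    match d.drop i with
    | x :: y :: r => if x = !y then some (d.take i ++ r) else none
    | _ => none
  | Piece.pos i, d =>
    match d.drop i with
    | true :: false :: r => some (d.take i ++ [true, false] ++ r)
    | _ => none
  | Piece.neg i, d =>
    match d.drop i with
    | false :: true :: r => some (d.take i ++ [false, true] ++ r)
    | _ => none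

/-- The arcs of the diagram `w` can be directed, with the directions `d` at its top, according to
the rules of `arcDirs`. -/
def Directable : Word → List Bool → Prop
  | [], d => d = []
  | p :: w, d => ∃ b : Bool, ∃ e : List Bool, arcDirs b p d = some e ∧ Directable w e

/-- A link diagram is alternating if over- and under-crossings alternate as one travels along each
component. Equivalently, all arcs of the diagram between two consecutive crossings can be directed
so that each of them leaves a crossing at which it is the end of the over-strand and arrives at a
crossing at which it is the end of the under-strand. -/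
def Alternating (w : Word) : Prop := Directable w []

theorem star_alternating (n : ℕ) : Alternating (forget (star n)) := by
  have h : ∀ (k : ℕ) (y : Word), Directable y [true, false, true, false] →
      Directable (forget (arms k) ++ y) [true, false, true, false] := by
    intro k
    induction k with
    | zero => intro y hy; exact hy
    | succ k ih =>
      intro y hy
      have e : forget (arms (k + 1)) ++ y = forget (arms k) ++ (forget armTwo ++ y) := by
        simp [arms, forget]
      rw [e]
      apply ih
      exact ⟨true, _, rfl, true, _, rfl, true, _, rfl, false, _, rfl, true, _, rfl, true, _, rfl,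
        true, _, rfl, true, _, rfl, hy⟩
  have e : forget (star n) = forget top ++ ([Piece.pos 0, Piece.pos 0] ++
      (forget armOne ++ (forget (arms n) ++ [Piece.death 1, Piece.death 0]))) := by
    simp [star, forget, OPiece.forget]
  unfold Alternating
  rw [e]
  exact ⟨true, _, rfl, false, _, rfl, true, _, rfl, true, _, rfl, true, _, rfl, true, _, rfl,
    true, _, rfl, true, _, rfl, h n _ ⟨true, _, rfl, true, _, rfl, rfl⟩⟩

end Pool.Agent.V8H81.Star

namespace Pool.Agent.V8H81.Star

section closed
open Pool.Agent.Helper454.Wh
open Pool.Agent.Helper454.Wh.OPiece

theorem below_armTwo : below armTwo 4 Q174.TBD.d0 = some (4, Q174.TBD.d0) := by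
  have e : below armTwo 4 Q174.TBD.d0 = some (4, delD 0 (delD 1 (swpD 2 (swpD 2
      (insD 3 false (swpD 1 (swpD 1 (insD 2 true Q174.TBD.d0)))))))) := rfl
  rw [e]
  congr 2
  funext k
  rcases k with _ | _ | _ | _ | k <;> rfl

theorem below_armOne : below armOne 4 Q174.TBD.d0 = some (4, Q174.TBD.d0) := by
  have e : below armOne 4 Q174.TBD.d0 = some (4, delD 0 (swpD 1 (swpD 1
      (insD 2 true Q174.TBD.d0)))) := rfl
  rw [e]
  congr 2
  funext k
  rcases k with _ | _ | _ | _ | k <;> rfl

theorem below_arms (n : ℕ) : below (arms n) 4 Q174.TBD.d0 = some (4, Q174.TBD.d0) := by
  induction n with
  | zero => rfl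
  | succ k ih => rw [arms, below_append, ih, Option.bind_some, below_armTwo]

theorem star_closed (n : ℕ) : OClosed (star n) := by
  have e0 : below [pos 0, pos 0] 4 Q174.TBD.d0 = some (4, Q174.TBD.d0) := by
    have e : below [pos 0, pos 0] 4 Q174.TBD.d0 = some (4, swpD 0 (swpD 0 Q174.TBD.d0)) := rfl
    rw [e, swp_swp]
  unfold OClosed star
  rw [below_append, below_top, Option.bind_some, below_append, e0, Option.bind_some, below_append,
    below_armOne, Option.bind_some, below_append, below_arms, Option.bind_some]
  rfl
end closed

section comp
open Pool.Agent.Helper454.Kauf (Piece Word IsKnot Closed components componentsAux width)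
open Pool.Agent.Helper454.Wh (OPiece OWord OClosed forget)

theorem comp_armTwo (w : Word) {x y k : ℕ} (hx : x < k) (hy : y < k) :
    componentsAux (forget armTwo ++ w) [x, x, y, y] k = componentsAux w [x, x, y, y] (k + 2) := by
  have h1 : x ≠ k := by omega
  have h2 : y ≠ k := by omega
  have h3 : x ≠ k + 1 := by omega
  have h4 : y ≠ k + 1 := by omega
  simp [armTwo, forget, OPiece.forget, componentsAux, h1, h2, h3, h4]

theorem comp_arms (n : ℕ) (w : Word) {x y k : ℕ} (hx : x < k) (hy : y < k) :
    componentsAux (forget (arms n) ++ w) [x, x, y, y] k =
      componentsAux w [x, x, y, y] (k + 2 * n) := by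
  induction n generalizing w with
  | zero => rfl
  | succ n ih =>
    have e : forget (arms (n + 1)) ++ w = forget (arms n) ++ (forget armTwo ++ w) := by
      simp [arms, forget]
    rw [e, ih, comp_armTwo _ (by omega) (by omega)]
    congr 1

theorem width_arms (n : ℕ) (w : Word) : width (forget (arms n) ++ w) 4 = width w 4 := by
  induction n generalizing w with
  | zero => rfl
  | succ n ih =>
    have e : forget (arms (n + 1)) ++ w = forget (arms n) ++ (forget armTwo ++ w) := by
      simp [arms, forget]
    rw [e, ih]
    rfl

theorem forget_star (n : ℕ) : forget (star n) = forget (top ++ [OPiece.pos 0, OPiece.pos 0] ++ armOne) ++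
    (forget (arms n) ++ [Piece.death 1, Piece.death 0]) := by
  simp [star, forget, OPiece.forget]

theorem star_knot (n : ℕ) : IsKnot (forget (star n)) := by
  rw [forget_star]
  constructor
  · have e : width (forget (top ++ [OPiece.pos 0, OPiece.pos 0] ++ armOne) ++
      (forget (arms n) ++ [Piece.death 1, Piece.death 0])) 0 =
      width (forget (arms n) ++ [Piece.death 1, Piece.death 0]) 4 := rfl
    rw [Closed, e, width_arms]
    rfl
  · have e : componentsAux (forget (top ++ [OPiece.pos 0, OPiece.pos 0] ++ armOne) ++
      (forget (arms n) ++ [Piece.death 1, Piece.death 0])) [] 0 =
      0 + componentsAux (forget (arms n) ++ [Piece.death 1, Piece.death 0]) [2, 2, 0, 0] 3 := rfl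
    rw [components, e, comp_arms n _ (by omega) (by omega)]
    rfl
end comp

end Pool.Agent.V8H81.Star
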